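import Pool.Agent.H95.FC.Targets
import Pool.Agent.H60.FM.VIG

/-!
# CNT: the number of the lines which differ from a given line by a unit
-/

set_option autoImplicit false

open MeasureTheory Set Filter NumberField
open scoped Real nonZeroDivisors Matrix MatrixGroups

namespace Pool.Agent.H41.FC

open Pool.Agent.H31.CN Pool.Agent.H89.FM Pool.Agent.H61.FM Pool.Agent.H89.FC Pool.Agent.H95.FC

theorem pf_CNT (hTRN : Pool.Agent.H95.FC.T_TRN) (hUNB : Pool.Agent.H95.FC.T_UNB) :
    Pool.Agent.H95.FC.T_CNT := by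
  classical
  intro K _ _ σ D f I α β Q b T W hIQ hOB hVB hLT V hV
  obtain ⟨h1, -, -⟩ := hTRN
  haveI : Finite (𝓞 K)ˣ := Pool.Agent.H60.FM.units_finite hIQ
  haveI : Fintype (𝓞 K)ˣ := Fintype.ofFinite _
  have hcard : Fintype.card (𝓞 K)ˣ ≤ 10 := by
    rw [← Nat.card_eq_fintype_card]
    exact hUNB K D hIQ
  have dsw : ∀ u v : ℤ × ℤ, det v u = -det u v := fun u v => by
    unfold det
    ring
  have hV0 : V ≠ 0 := by
    intro h
    have := hLT.one V hV
    rw [h] at this
    unfold det at this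
    simp at this
  have hlv : lv K α β V ≠ 0 := fun h => hV0 (hOB.inj V h)
  have hch : ∀ V' ∈ T.filter (fun V' => UP α β f V V'), ∃ u : (𝓞 K)ˣ, ∃ w : ℤ × ℤ,
      lv K α β w = (u : 𝓞 K) * lv K α β V ∧ (f : ℤ) ∣ det V' w := fun V' hV' =>
    (Finset.mem_filter.1 hV').2
  choose! U hU using hch
  have hinj : Set.InjOn U (T.filter (fun V' => UP α β f V V') : Finset (ℤ × ℤ)) := by
    intro V1 hV1 V2 hV2 h12
    obtain ⟨w1, e1, d1⟩ := hU V1 hV1
    obtain ⟨w2, e2, d2⟩ := hU V2 hV2
    have hw : w2 = w1 := by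
      have h2 : lv K α β (w2 - w1) = 0 := by
        have h3 : lv K α β (w2 - w1) = lv K α β w2 - lv K α β w1 := by
          unfold lv
          simp only [Prod.fst_sub, Prod.snd_sub]
          push_cast
          ring
        rw [h3, e1, e2, h12, sub_self]
      exact sub_eq_zero.1 (hOB.inj _ h2)
    rw [hw] at d2
    have hw0 : w1 ≠ 0 := by
      intro h
      rw [h] at e1
      have h2 : lv K α β 0 = 0 := by
        unfold lv
        simp
      rw [h2] at e1
      exact mul_ne_zero (Units.ne_zero _) hlv e1.symm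
    have hspan : Ideal.span {lv K α β w1} = Ideal.span {lv K α β V} := by
      rw [e1]
      exact Ideal.span_singleton_mul_left_unit (Units.isUnit _) _
    have hb : b w1 = b V := by
      have h2 := hVB.spn w1 hw0
      have h3 := hVB.spn V hV0
      rw [hspan, h3] at h2
      have hI0 : (I : Ideal (𝓞 K)) ≠ 0 := nonZeroDivisors.coe_ne_zero I
      exact Subtype.ext (mul_right_cancel₀ hI0 h2.symm)
    have hval : val Q w1 = val Q V := by
      rw [← hVB.nrm w1 hw0, ← hVB.nrm V hV0, hb]
    have hUw : Uv f Q w1 := by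
      unfold Uv
      rw [hval]
      exact hLT.un V hV
    refine hLT.uni V1 (Finset.mem_filter.1 hV1).1 V2 (Finset.mem_filter.1 hV2).1
      (h1 f Q V1 w1 V2 hUw d1 ?_)
    rw [dsw]
    exact (dvd_neg).2 d2
  refine le_trans ?_ hcard
  rw [← Finset.card_univ]
  exact Finset.card_le_card_of_injOn U (fun _ _ => Finset.mem_coe.2 (Finset.mem_univ _)) hinj

end Pool.Agent.H41.FC
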