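import Pool.Agent.H95.FC.Targets

/-!
# LTX: representatives of the lines exist
-/

set_option autoImplicit false

open MeasureTheory Set Filter NumberField
open scoped Real nonZeroDivisors Matrix MatrixGroups

namespace Pool.Agent.H41.FC

open Pool.Agent.H31.CN Pool.Agent.H89.FM Pool.Agent.H61.FM Pool.Agent.H89.FC Pool.Agent.H95.FC

theorem pf_LTX (hTRN : Pool.Agent.H95.FC.T_TRN) : Pool.Agent.H95.FC.T_LTX := by
  classical
  intro f Q hf
  obtain ⟨h1, -, -⟩ := hTRN
  haveI : NeZero f := ⟨by omega⟩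
  have dsw : ∀ u v : ℤ × ℤ, det v u = -det u v := fun u v => by
    unfold det
    ring
  have dself : ∀ u : ℤ × ℤ, det u u = 0 := fun u => by
    unfold det
    ring
  -- coprime vectors with a value prime to `f`
  let r : Setoid {V : ℤ × ℤ // IsCoprime V.1 V.2 ∧ Uv f Q V} :=
    { r := fun V V' => (f : ℤ) ∣ det V.1 V'.1
      iseqv := ⟨fun V => by rw [dself]; exact dvd_zero _,
        fun {V V'} h => by rw [dsw]; exact (dvd_neg).2 h,
        fun {V V' V''} h h' => h1 f Q V.1 V'.1 V''.1 V'.2.2 h h'⟩ }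
  have hrel : ∀ V V' : {V : ℤ × ℤ // IsCoprime V.1 V.2 ∧ Uv f Q V},
      (f : ℤ) ∣ det V.1 V'.1 → (Quotient.mk r V) = Quotient.mk r V' := fun V V' h =>
    Quotient.sound h
  have hfin : Finite (Quotient r) := by
    refine Finite.of_injective (fun q : Quotient r =>
      (((q.out.1.1 : ℤ) : ZMod f), ((q.out.1.2 : ℤ) : ZMod f))) ?_
    intro a b hab
    have e1 := congrArg Prod.fst hab
    have e2 := congrArg Prod.snd hab
    simp only at e1 e2
    rw [ZMod.intCast_eq_intCast_iff_dvd_sub] at e1 e2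
    have h2 : (f : ℤ) ∣ det a.out.1 b.out.1 := by
      have e : det a.out.1 b.out.1 = a.out.1.1 * (b.out.1.2 - a.out.1.2) -
          a.out.1.2 * (b.out.1.1 - a.out.1.1) := by
        unfold det
        ring
      rw [e]
      exact dvd_sub (Dvd.dvd.mul_left e2 _) (Dvd.dvd.mul_left e1 _)
    have h3 := hrel _ _ h2
    rw [Quotient.out_eq, Quotient.out_eq] at h3
    exact h3
  let T : Finset (ℤ × ℤ) := (Set.finite_range (fun q : Quotient r => q.out.1)).toFinset
  have hT : ∀ V, V ∈ T ↔ ∃ q : Quotient r, q.out.1 = V := fun V => by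
    change V ∈ (Set.finite_range (fun q : Quotient r => q.out.1)).toFinset ↔ _
    rw [Set.Finite.mem_toFinset, Set.mem_range]
  have hW : ∀ V : ℤ × ℤ, ∃ w : ℤ × ℤ, IsCoprime V.1 V.2 → det V w = 1 := by
    intro V
    by_cases h : IsCoprime V.1 V.2
    · obtain ⟨a, b, hab⟩ := h
      refine ⟨(-b, a), fun _ => ?_⟩
      unfold det
      simp only
      linear_combination hab
    · exact ⟨0, fun h' => absurd h' h⟩
  choose W hW' using hW
  refine ⟨T, W, ⟨?_, ?_, ?_, ?_⟩⟩
  · intro V hV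
    obtain ⟨q, rfl⟩ := (hT V).1 hV
    exact hW' _ q.out.2.1
  · intro V hV
    obtain ⟨q, rfl⟩ := (hT V).1 hV
    exact q.out.2.2
  · intro u hu
    by_cases hu0 : u = 0
    · have hf1 : f = 1 := by
        rw [hu0] at hu
        have h2 : val Q 0 = 0 := by
          unfold val
          simp
        unfold Uv at hu
        rw [h2, isCoprime_zero_left, Int.isUnit_iff] at hu
        omega
      have hc : IsCoprime ((1, 0) : ℤ × ℤ).1 ((1, 0) : ℤ × ℤ).2 ∧ Uv f Q (1, 0) := by
        refine ⟨isCoprime_one_left, ?_⟩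
        unfold Uv
        rw [hf1]
        exact isCoprime_one_right
      have hf2 : (f : ℤ) = 1 := by exact_mod_cast hf1
      have hd : ∀ x : ℤ, (f : ℤ) ∣ x := fun x => hf2 ▸ one_dvd x
      exact ⟨(Quotient.mk r ⟨(1, 0), hc⟩).out.1, (hT _).2 ⟨_, rfl⟩, hd _⟩
    · have hg : 0 < Int.gcd u.1 u.2 := by
        rw [Int.gcd_pos_iff]
        by_contra h
        push Not at h
        exact hu0 (Prod.ext h.1 h.2)
      obtain ⟨a, b, hab, ha, hb⟩ := Int.exists_gcd_one hg
      have hv : val Q u = (Int.gcd u.1 u.2 : ℤ) ^ 2 * val Q (a, b) := by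
        have e : val Q u = Q.1 * (a * (Int.gcd u.1 u.2 : ℤ)) ^ 2 +
            Q.2.1 * (a * (Int.gcd u.1 u.2 : ℤ)) * (b * (Int.gcd u.1 u.2 : ℤ)) +
            Q.2.2 * (b * (Int.gcd u.1 u.2 : ℤ)) ^ 2 := by
          rw [← ha, ← hb]
          rfl
        rw [e]
        unfold val
        ring
      have hU : Uv f Q (a, b) := by
        unfold Uv at hu ⊢
        rw [hv] at hu
        exact IsCoprime.of_mul_left_right hu
      have hc : IsCoprime ((a, b) : ℤ × ℤ).1 ((a, b) : ℤ × ℤ).2 ∧ Uv f Q (a, b) :=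
        ⟨Int.isCoprime_iff_gcd_eq_one.2 hab, hU⟩
      have h2 : (f : ℤ) ∣ det (Quotient.mk r ⟨(a, b), hc⟩).out.1 (a, b) :=
        Quotient.exact (Quotient.out_eq (Quotient.mk r ⟨(a, b), hc⟩))
      have h3 : (f : ℤ) ∣ det (a, b) u := by
        have e : det (a, b) u = 0 := by
          have e' : det (a, b) u = a * (b * (Int.gcd u.1 u.2 : ℤ)) -
              b * (a * (Int.gcd u.1 u.2 : ℤ)) := by
            rw [← ha, ← hb]
            rfl
          rw [e']
          ring
        rw [e]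
        exact dvd_zero _
      exact ⟨_, (hT _).2 ⟨_, rfl⟩, h1 f Q _ (a, b) u hU h2 h3⟩
  · intro V hV V' hV' h
    obtain ⟨q, rfl⟩ := (hT V).1 hV
    obtain ⟨q', rfl⟩ := (hT V').1 hV'
    have h3 := hrel _ _ h
    rw [Quotient.out_eq, Quotient.out_eq] at h3
    rw [h3]

end Pool.Agent.H41.FC
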